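import Pool.Agent.E8helper30.MC.BD
import Pool.Agent.E8helper54.MC.Sw
import Pool.Agent.E8helper91.MC.Dj
import Pool.Agent.E8helper56.MC.Cnt
import Pool.Agent.E8helper25.MC.Sat
import Pool.Agent.E8helper88.MC.TR
import Pool.Agent.E8helper99.MC.Good
import Pool.Agent.E8helper14.MC.Uc
import Pool.Agent.E8helper45.MC.GLOB
import Pool.Agent.E8helper98.MC.SGR
import Pool.Agent.E8helper40.MC.Fri
import Pool.Agent.E8helper42.MC.Fr
import Pool.Agent.E8helper7.MC.Num

/-!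
# Minimal complements: `T(G) ≤ c √|G| (log |G|)²` for all finite abelian groups

`IsMinimalComplementFor C W` says that `W + C = G` and no proper subset `C'` of `C` has `W + C' = G`;
`IsMinimalComplement C` says that `C` is a minimal complement for some `W`. `TG G` is the largest `T`
such that all non-empty subsets of cardinality at most `T` are minimal complements in `G` (a supremum in
`ℕ∞`), and `Tn n` is the minimum of `TG G` over all abelian groups `G` of order `n`.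
-/

set_option autoImplicit false

namespace Pool.Agent.Results.MP_d8224a_co.SqrtUpperBoundH30

open scoped Pointwise

/-- `C` is a minimal complement for `W` -/
def IsMinimalComplementFor {G : Type} [AddCommGroup G] (C W : Set G) : Prop :=
  W + C = Set.univ ∧ ∀ C' ⊂ C, W + C' ≠ Set.univ

/-- `C` is a minimal complement in `G` -/
def IsMinimalComplement {G : Type} [AddCommGroup G] (C : Set G) : Prop :=
  ∃ W : Set G, IsMinimalComplementFor C W

/-- `T(G)` -/
noncomputable def TG (G : Type) [AddCommGroup G] : ℕ∞ :=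
  sSup {T : ℕ∞ | ∀ C : Set G, C.Nonempty → C.encard ≤ T → IsMinimalComplement C}

/-- `T(n)` -/
noncomputable def Tn (n : ℕ) : ℕ∞ :=
  ⨅ (G : Type) (_ : AddCommGroup G) (_ : Nat.card G = n), TG G

open Pool.Agent.E8helper30.MC

theorem TG_le {G : Type} [AddCommGroup G] [Finite G] {C : Set G} {M : ℕ} (h1 : C.Nonempty)
    (h2 : C.ncard ≤ M) (h3 : ¬ IsMC C) : TG G ≤ M := by
  have hC : C.encard ≤ (M : ℕ∞) := by
    rw [← Set.Finite.cast_ncard_eq (Set.toFinite C)]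
    exact_mod_cast h2
  refine sSup_le fun T hT => ?_
  by_contra hcon
  push Not at hcon
  exact h3 (hT C h1 (hC.trans hcon.le))

theorem le_cast {x : ℕ∞} {M : ℕ} {y : ℝ} (h : x ≤ M) (hM : (M : ℝ) ≤ y) :
    ∃ k : ℕ, x = k ∧ (k : ℝ) ≤ y := by
  obtain ⟨k, hk⟩ := ENat.ne_top_iff_exists.1 (ne_top_of_le_ne_top (ENat.coe_ne_top M) h)
  refine ⟨k, hk.symm, ?_⟩
  rw [← hk] at h
  have h4 : k ≤ M := by exact_mod_cast h
  have h5 : (k : ℝ) ≤ M := by exact_mod_cast h4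
  exact h5.trans hM

theorem main (hBD : S_BD) (hNUM : S_NUM) : ∃ (c : ℝ) (N : ℕ), 0 < c ∧
    (∀ (G : Type) [AddCommGroup G] [Finite G], N ≤ Nat.card G →
      ∃ k : ℕ, TG G = k ∧ (k : ℝ) ≤ c * √(Nat.card G) * (Real.log (Nat.card G)) ^ 2) ∧
    ∀ n : ℕ, N ≤ n → ∃ k : ℕ, Tn n = k ∧ (k : ℝ) ≤ c * √n * (Real.log n) ^ 2 := by
  obtain ⟨c, N, hc, hN⟩ := hNUM
  refine ⟨c, N + 1, hc, ?_, ?_⟩
  · intro G _ _ hG
    obtain ⟨t, lam, h1, h2, h3, h4, h5, h6⟩ := hN (Nat.card G) (by omega)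
    obtain ⟨C, hC1, hC2, hC3⟩ := hBD G t lam h1 h2 h3 h4 h5
    exact le_cast (TG_le hC1 hC2 hC3) h6
  · intro n hn
    obtain ⟨t, lam, h1, h2, h3, h4, h5, h6⟩ := hN n (by omega)
    haveI : NeZero n := ⟨by omega⟩
    have hcard : Nat.card (ZMod n) = n := Nat.card_zmod n
    obtain ⟨C, hC1, hC2, hC3⟩ := hBD (ZMod n) t lam h1 h2 (by rw [hcard]; exact h3)
      (by rw [hcard]; exact h4) (by rw [hcard]; exact h5)
    have h7 : Tn n ≤ TG (ZMod n) := by
      unfold Tn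
      exact iInf_le_of_le (ZMod n) (iInf_le_of_le inferInstance (iInf_le_of_le hcard le_rfl))
    exact le_cast (h7.trans (TG_le hC1 hC2 hC3)) h6

theorem hBD : S_BD :=
  t_BD
    (Pool.Agent.E8helper99.MC.t_GOOD Pool.Agent.E8helper54.MC.t_SW
      (Pool.Agent.E8helper25.MC.t_SAT Pool.Agent.E8helper91.MC.t_DJ Pool.Agent.E8helper56.MC.t_CNT)
      Pool.Agent.E8helper88.MC.t_SUB)
    (Pool.Agent.E8helper14.MC.t_UC Pool.Agent.E8helper88.MC.t_TR)
    Pool.Agent.E8helper45.MC.t_GLOB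
    (Pool.Agent.E8helper42.MC.t_FR Pool.Agent.E8helper98.MC.t_SGR Pool.Agent.E8helper42.MC.t_FRH
      Pool.Agent.E8helper40.MC.t_FRI)

/-- **Theorem.** There are `c > 0` and `N` such that `T(G) ≤ c √|G| (log |G|)²` for all finite abelian
groups `G` with `|G| ≥ N` and `T(n) ≤ c √n (log n)²` for all `n ≥ N`. -/
theorem result : ∃ (c : ℝ) (N : ℕ), 0 < c ∧
    (∀ (G : Type) [AddCommGroup G] [Finite G], N ≤ Nat.card G →
      ∃ k : ℕ, TG G = k ∧ (k : ℝ) ≤ c * √(Nat.card G) * (Real.log (Nat.card G)) ^ 2) ∧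
    ∀ n : ℕ, N ≤ n → ∃ k : ℕ, Tn n = k ∧ (k : ℝ) ≤ c * √n * (Real.log n) ^ 2 :=
  main hBD Pool.Agent.E8helper7.MC.t_NUM

end Pool.Agent.Results.MP_d8224a_co.SqrtUpperBoundH30
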